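import Pool.Agent.W968.SC.Low
import Pool.Agent.W664.SC.Upper

/-!
# Computably scattered posets: the exact level of their computably scattered linear extensions

There is a single computable poset in which every element has finitely many predecessors or
finitely many successors (so that it is scattered outright), such that no linear extension which is
co-c.e., or approximable with a bounded number of mind changes, is computably scattered.
Conversely every computable, computably scattered poset has, for every computable, nondecreasing,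
unbounded function `h`, a computably scattered linear extension approximable with at most `h` mind
changes.

The definitions `ComputablePoset`, `LinearExtension` and `MindChanges` are those of the starting
file `SharpErshov`; `rat` and `CompScattered` are in `Pool.Agent.W968.SC.Def`.
-/

set_option autoImplicit false

namespace Pool.Agent.Results.MP_f7ace6_lc.SharpErshovScattered

open Nat.Partrec (Code)
open Pool.Agent.Results.MP_f7ace6_lc.SharpErshov
open Pool.Agent.W968.SC

/-- the poset: disjoint union of all the orders of the construction -/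
def Pos (x y : ℕ) : Prop :=
  x.unpair.1 = y.unpair.1 ∧
    Le (Low.N x.unpair.1) (Low.G x.unpair.1) x.unpair.2 y.unpair.2 = true

instance (x y : ℕ) : Decidable (Pos x y) := by unfold Pos; infer_instance

theorem Pos_pair {i x y : ℕ} :
    Pos (Nat.pair i x) (Nat.pair i y) ↔ Le (Low.N i) (Low.G i) x y = true := by
  unfold Pos
  simp only [Nat.unpair_pair, true_and]

theorem Pos_poset : ComputablePoset Pos := by
  refine ⟨fun x => ⟨rfl, Q_refl _⟩, ?_, ?_, ?_⟩
  · rintro x y z ⟨h1, h2⟩ ⟨h3, h4⟩
    refine ⟨h1.trans h3, ?_⟩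
    rw [← h1] at h4
    exact Q_trans h2 h4
  · rintro x y ⟨h1, h2⟩ ⟨_, h4⟩
    rw [← h1] at h4
    have := Q_antisymm h2 h4
    rw [← Nat.pair_unpair x, ← Nat.pair_unpair y, h1, this]
  · refine ⟨fun _ => inferInstance, ?_⟩
    have u1 : Primrec (fun p : ℕ × ℕ => p.1.unpair.1) :=
      Primrec.fst.comp (Primrec.unpair.comp Primrec.fst)
    have u2 : Primrec (fun p : ℕ × ℕ => p.1.unpair.2) :=
      Primrec.snd.comp (Primrec.unpair.comp Primrec.fst)
    have v1 : Primrec (fun p : ℕ × ℕ => p.2.unpair.1) :=
      Primrec.fst.comp (Primrec.unpair.comp Primrec.snd)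
    have v2 : Primrec (fun p : ℕ × ℕ => p.2.unpair.2) :=
      Primrec.snd.comp (Primrec.unpair.comp Primrec.snd)
    have h1 : Primrec (fun p : ℕ × ℕ => decide (p.1.unpair.1 = p.2.unpair.1) &&
        Le (Low.N p.1.unpair.1) (Low.G p.1.unpair.1) p.1.unpair.2 p.2.unpair.2) :=
      Primrec.and.comp (Primrec.eq.comp u1 v1).decide
        (Pool.Agent.W766.SC.Pr.pr_Le Low.primrec_G Low.primrec_N u1 u2 v2)
    refine (h1.of_eq fun p => ?_).to_comp
    unfold Pos
    simp

theorem Pos_one_sided (z : ℕ) : {x | Pos z x}.Finite ∨ {x | Pos x z}.Finite := by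
  rcases one_sided (n := Low.N z.unpair.1) (g := Low.G z.unpair.1) z.unpair.2 with h | h
  · left
    refine (h.image (fun x => Nat.pair z.unpair.1 x)).subset ?_
    rintro x ⟨h1, h2⟩
    exact ⟨x.unpair.2, h2, by simp only; rw [h1, Nat.pair_unpair]⟩
  · right
    refine (h.image (fun x => Nat.pair z.unpair.1 x)).subset ?_
    rintro x ⟨h1, h2⟩
    rw [h1] at h2
    exact ⟨x.unpair.2, h2, by simp only; rw [← h1, Nat.pair_unpair]⟩

/-- an order in which every element has finitely many successors or finitely many predecessors is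
scattered -/
theorem scattered {P : ℕ → ℕ → Prop} (h : ∀ z, {x | P z x}.Finite ∨ {x | P x z}.Finite) :
    ¬ ∃ φ : ℚ → ℕ, ∀ p q : ℚ, p < q → P (φ p) (φ q) ∧ φ p ≠ φ q := by
  rintro ⟨φ, hφ⟩
  have hinj : Function.Injective φ := by
    intro p q he
    rcases lt_trichotomy p q with h1 | h1 | h1
    · exact absurd he (hφ p q h1).2
    · exact h1
    · exact absurd he.symm (hφ q p h1).2
  rcases h (φ 0) with h1 | h1
  · have h2 : (φ '' Set.Ioi 0).Finite :=
      h1.subset (by rintro _ ⟨q, hq, rfl⟩; exact (hφ 0 q hq).1)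
    exact Set.Ioi_infinite (0 : ℚ) (Set.Finite.of_finite_image h2 hinj.injOn)
  · have h2 : (φ '' Set.Iio 0).Finite :=
      h1.subset (by rintro _ ⟨q, hq, rfl⟩; exact (hφ q 0 hq).1)
    exact Set.Iio_infinite (0 : ℚ) (Set.Finite.of_finite_image h2 hinj.injOn)

theorem not_sc_ext {n : ℕ} {L : ℕ → ℕ → Prop} (hL : LinearExtension Pos L)
    (hM : MindChanges L (fun _ _ => n)) : ¬ CompScattered L := by
  obtain ⟨g, hg, hch, hlim⟩ := hM
  have hh : Computable (fun z : ℕ => (g z.unpair.1 z.unpair.2.unpair.1 z.unpair.2.unpair.2).toNat) := by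
    have u1 : Primrec (fun z : ℕ => z.unpair.1) := Primrec.fst.comp Primrec.unpair
    have u2 : Primrec (fun z : ℕ => z.unpair.2) := Primrec.snd.comp Primrec.unpair
    have hb : Computable (fun z : ℕ => g z.unpair.1 z.unpair.2.unpair.1 z.unpair.2.unpair.2) := by
      have := hg.comp (u1.pair ((u1.comp u2).pair (u2.comp u2))).to_comp
      exact this
    refine (Computable.cond hb (Computable.const 1) (Computable.const 0)).of_eq fun z => ?_
    cases g z.unpair.1 z.unpair.2.unpair.1 z.unpair.2.unpair.2 <;> rfl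
  obtain ⟨c, hc⟩ := exists_index hh
  set i := Nat.pair c (n + 1) with hi
  have hL' : LinearExtension (fun x y => Le (Low.N i) (Low.G i) x y = true)
      (fun x y => L (Nat.pair i x) (Nat.pair i y)) := by
    refine ⟨fun x => hL.refl _, fun x y z => hL.trans _ _ _, fun x y h1 h2 => ?_,
      fun x y => hL.total _ _, fun x y h => hL.extend _ _ (Pos_pair.2 h)⟩
    have := hL.antisymm _ _ h1 h2
    exact (Nat.pair_eq_pair.1 this).2
  have hG : ∀ x y s, Low.G i x y s = Low.Gd c (Nat.pair i x) (Nat.pair i y) s := by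
    intro x y s
    unfold Low.G
    rw [hi, Nat.unpair_pair]
  have hN : Low.N i = n + 1 := by unfold Low.N; rw [hi, Nat.unpair_pair]
  have hStc : Computable (St (Low.N i) (Low.G i)) := by
    have h1 : Primrec (fun s : ℕ => St (Low.N i) (Low.G i) s) :=
      Pool.Agent.W766.SC.Pr.pr_St Low.primrec_G Low.primrec_N (i := fun _ : ℕ => i)
        (Primrec.const i) Primrec.id
    exact h1.to_comp
  obtain ⟨φ, hφ, hd⟩ := not_sc hStc hL' (fun x y => by
      simp only [hG]
      exact Low.Gd_lim hc (hlim _ _))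
    (fun x y => by
      simp only [hG]
      rw [hN]
      exact Low.Gd_changes hc (hch _ _))
  intro hwf
  refine hwf ⟨fun q => Nat.pair i (φ q), (Primrec₂.natPair.comp (Primrec.const i)
    Primrec.id).to_comp.comp hφ, fun p q hpq => ⟨(hd p q hpq).1, fun h => (hd p q hpq).2 ?_⟩⟩
  exact (Nat.pair_eq_pair.1 h).2

/-- **Main theorem.** -/
theorem result :
    (∃ P : ℕ → ℕ → Prop, ComputablePoset P ∧
      (∀ z, {x | P z x}.Finite ∨ {x | P x z}.Finite) ∧
      (¬ ∃ φ : ℚ → ℕ, ∀ p q : ℚ, p < q → P (φ p) (φ q) ∧ φ p ≠ φ q) ∧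
      (∀ L : ℕ → ℕ → Prop, LinearExtension P L → REPred (fun p : ℕ × ℕ => ¬ L p.1 p.2) →
        ¬ CompScattered L) ∧
      ∀ n : ℕ, ∀ L : ℕ → ℕ → Prop, LinearExtension P L → MindChanges L (fun _ _ => n) →
        ¬ CompScattered L) ∧
    (∀ P : ℕ → ℕ → Prop, ComputablePoset P → CompScattered P →
      ∀ h : ℕ → ℕ, Computable h → Monotone h → (∀ m, ∃ x, m ≤ h x) →
        ∃ L : ℕ → ℕ → Prop, LinearExtension P L ∧ CompScattered L ∧
          MindChanges L (fun x y => h (Nat.pair x y))) :=
  ⟨⟨Pos, Pos_poset, Pos_one_sided, scattered Pos_one_sided,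
    fun _ hL hq => not_sc_ext hL (mind_of_pi hL hq),
    fun _ _ hL hM => not_sc_ext hL hM⟩,
    fun _ hP hsc _ hh hm hu => Pool.Agent.W664.SC.upper_sc hP hsc hh hm hu⟩

end Pool.Agent.Results.MP_f7ace6_lc.SharpErshovScattered
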